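import Mathlib

set_option maxHeartbeats 400000

namespace Pool.Agent.H.MP_997916_al

open Function Finsupp

section
variable {Γ K Ω Ω' : Type} [Group Γ] [Group K] (f : K →* Γ)

/-- point stabilizer -/
def st (a : K →* Equiv.Perm Ω) (o : Ω) : Subgroup K where
  carrier := {k | a k o = o}
  one_mem' := by simp
  mul_mem' := by
    intro x y hx hy
    simp only [Set.mem_setOf_eq] at hx hy ⊢
    rw [map_mul, Equiv.Perm.mul_apply, hy, hx]
  inv_mem' := by
    intro x hx
    simp only [Set.mem_setOf_eq] at hx ⊢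
    rw [map_inv, Equiv.Perm.inv_eq_iff_eq, hx]

theorem exι (a : K →* Equiv.Perm Ω) (o : Ω) (ht : ∀ j, ∃ k, a k o = j) :
    ∃ ι : Ω → Γ ⧸ (st a o).map f, ∀ k, ι (a k o) = (f k : Γ) := by
  choose τ hτ using ht
  refine ⟨fun j => (f (τ j) : Γ), fun k => QuotientGroup.eq.2 ⟨(τ (a k o))⁻¹ * k, ?_, by simp⟩⟩
  show a _ o = o
  rw [map_mul, map_inv, Equiv.Perm.mul_apply, Equiv.Perm.inv_eq_iff_eq, hτ]

variable [Fintype Ω']

theorem half (a : K →* Equiv.Perm Ω) (o : Ω) (ht : ∀ j, ∃ k, a k o = j)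
    (a' : K →* Equiv.Perm Ω') (o' : Ω') (ht' : ∀ j, ∃ k, a' k o' = j)
    (ι : Ω → Γ ⧸ (st a o).map f) (hι : ∀ k, ι (a k o) = (f k : Γ))
    (ι' : Ω' → Γ ⧸ (st a' o').map f) (hι' : ∀ k, ι' (a' k o') = (f k : Γ))
    (M : Ω → Ω' → ℤ) (hM : ∀ k i j, M (a k i) (a' k j) = M i j) :
    ∃ φ : ((Γ ⧸ (st a o).map f) →₀ ℤ) →ₗ[ℤ] ((Γ ⧸ (st a' o').map f) →₀ ℤ),
      ∀ (γ : Γ) i, φ (single (γ • ι i) 1) = ∑ j, M i j • single (γ • ι' j) 1 := by
  have h1 : ∀ k j, ι' (a' k j) = f k • ι' j := by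
    intro k j
    obtain ⟨l, rfl⟩ := ht' j
    rw [← Equiv.Perm.mul_apply, ← map_mul, hι', hι', map_mul]
    rfl
  refine ⟨linearCombination ℤ fun q => ∑ j, M o j • single (q.out • ι' j) 1, fun γ i => ?_⟩
  obtain ⟨k, rfl⟩ := ht i
  rw [linearCombination_single, one_smul, hι]
  obtain ⟨⟨_, l, hl, rfl⟩, h⟩ := QuotientGroup.mk_out_eq_mul ((st a o).map f) (γ * f k)
  have h2 : (γ • ((f k : Γ) : Γ ⧸ (st a o).map f)).out = γ * f (k * l) := by
    rw [map_mul, ← mul_assoc]; exact h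
  rw [h2, ← Equiv.sum_comp (a' (k * l)) (fun j => M (a k o) j • single (γ • ι' j) (1 : ℤ))]
  refine Finset.sum_congr rfl fun j _ => ?_
  rw [h1, mul_smul, ← hM (k * l) o j, map_mul a, Equiv.Perm.mul_apply, (hl : a l o = o)]

theorem eqv [Fintype Ω] [DecidableEq Ω] [DecidableEq Ω'] (a : K →* Equiv.Perm Ω) (o : Ω)
    (ht : ∀ j, ∃ k, a k o = j) (a' : K →* Equiv.Perm Ω') (o' : Ω') (ht' : ∀ j, ∃ k, a' k o' = j)
    (M : Ω → Ω' → ℤ) (hM : ∀ k i j, M (a k i) (a' k j) = M i j)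
    (M' : Ω' → Ω → ℤ) (hM' : ∀ k i j, M' (a' k i) (a k j) = M' i j)
    (h1 : ∀ i, ∑ j, M o j * M' j i = if i = o then 1 else 0)
    (h2 : ∀ i, ∑ j, M' o' j * M j i = if i = o' then 1 else 0) :
    ∃ e : ((Γ ⧸ (st a o).map f) →₀ ℤ) ≃ₗ[ℤ] ((Γ ⧸ (st a' o').map f) →₀ ℤ),
      ∀ (g : Γ) x, e (mapDomain (g • ·) x) = mapDomain (g • ·) (e x) := by
  obtain ⟨ι, hι⟩ := exι f a o ht
  obtain ⟨ι', hι'⟩ := exι f a' o' ht'
  obtain ⟨φ, hφ⟩ := half f a o ht a' o' ht' ι hι ι' hι' M hM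
  obtain ⟨ψ, hψ⟩ := half f a' o' ht' a o ht ι' hι' ι hι M' hM'
  have s1 : ∀ q : Γ ⧸ (st a o).map f, ∃ γ : Γ, q = γ • ι o := by
    intro q
    obtain ⟨γ, rfl⟩ := QuotientGroup.mk_surjective q
    have := hι 1
    rw [map_one, Equiv.Perm.one_apply] at this
    exact ⟨γ, by rw [this]; simp⟩
  have s2 : ∀ q : Γ ⧸ (st a' o').map f, ∃ γ : Γ, q = γ • ι' o' := by
    intro q
    obtain ⟨γ, rfl⟩ := QuotientGroup.mk_surjective q
    have := hι' 1
    rw [map_one, Equiv.Perm.one_apply] at this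
    exact ⟨γ, by rw [this]; simp⟩
  refine ⟨LinearEquiv.ofLinear φ ψ ?_ ?_, fun g x => ?_⟩
  · refine lhom_ext' fun q => LinearMap.ext_ring ?_
    obtain ⟨γ, rfl⟩ := s2 q
    show φ (ψ (single _ 1)) = single _ 1
    simp only [hψ, map_sum, map_smul, hφ, Finset.smul_sum, smul_smul]
    rw [Finset.sum_comm]
    simp only [← Finset.sum_smul, h2]
    simp
  · refine lhom_ext' fun q => LinearMap.ext_ring ?_
    obtain ⟨γ, rfl⟩ := s1 q
    show ψ (φ (single _ 1)) = single _ 1
    simp only [hφ, map_sum, map_smul, hψ, Finset.smul_sum, smul_smul]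
    rw [Finset.sum_comm]
    simp only [← Finset.sum_smul, h1]
    simp
  · have : φ ∘ₗ lmapDomain ℤ ℤ (g • ·) = lmapDomain ℤ ℤ (g • ·) ∘ₗ φ := by
      refine lhom_ext' fun q => LinearMap.ext_ring ?_
      obtain ⟨γ, rfl⟩ := s1 q
      show φ (mapDomain _ (single _ 1)) = lmapDomain ℤ ℤ (g • ·) (φ (single _ 1))
      rw [mapDomain_single, ← mul_smul, hφ, hφ, map_sum]
      simp only [map_smul, lmapDomain_apply, mapDomain_single, mul_smul]
    exact DFunLike.congr_fun this x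
end

/-- a normal subgroup of order three -/
def Pr (H : Type) [Group H] : Prop :=
  ∃ x : H, x ≠ 1 ∧ x ^ 3 = 1 ∧ ∀ h, h * x * h⁻¹ = x ∨ h * x * h⁻¹ = x⁻¹

theorem Pr.map {H H' : Type} [Group H] [Group H'] (e : H ≃* H') (h : Pr H) : Pr H' := by
  obtain ⟨x, h1, h2, h3⟩ := h
  refine ⟨e x, by simpa using h1, by rw [← map_pow, h2, map_one], fun y => ?_⟩
  obtain ⟨y, rfl⟩ := e.surjective y
  simpa only [← map_inv, ← map_mul, e.injective.eq_iff] using h3 y

theorem core {K : Type} [Group K] : ∃ f : K →* K ≀ᵣ ℤˣ, Injective f ∧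
    ∀ H : Subgroup K, (H.map f).normalCore = ⊥ := by
  let f : K →* K ≀ᵣ ℤˣ := MonoidHom.mk' (fun k => ⟨Pi.mulSingle 1 k, 1⟩) (by
    intro a b
    ext x
    · simp [Pi.mulSingle_mul]
    · simp)
  refine ⟨f, fun a b h => ?_, fun H => ?_⟩
  · simpa [f] using congrFun (congrArg RegularWreathProduct.left h) 1
  · rw [eq_bot_iff]
    intro x hx
    obtain ⟨k, -, rfl⟩ := Subgroup.normalCore_le _ hx
    obtain ⟨l, -, hl⟩ := hx (RegularWreathProduct.inl (-1))
    have : k = 1 := by simpa [f] using (congrFun (congrArg RegularWreathProduct.left hl) (-1)).symm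
    simp [this]

/-- the symmetric group on three points -/
abbrev S := Equiv.Perm (Fin 3)

/-- permuting coordinates -/
def act {G Ω : Type} [Group G] (a : G →* Equiv.Perm Ω) : G →* MulAut (Ω → S) := MonoidHom.mk'
  (fun g => MulEquiv.arrowCongr (a g) (MulEquiv.refl S)) (by
    intro g h
    ext u x
    simp [Equiv.Perm.mul_def])

/-- permutational wreath product -/
abbrev K {G Ω : Type} [Group G] (a : G →* Equiv.Perm Ω) := (Ω → S) ⋊[act a] G

theorem main {G Ω Ω' : Type} [Group G] [Finite G] [Fintype Ω] [Fintype Ω'] [DecidableEq Ω]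
    [DecidableEq Ω'] (a : G →* Equiv.Perm Ω) (o : Ω)
    (ht : ∀ j, ∃ k, a k o = j) (a' : G →* Equiv.Perm Ω') (o' : Ω') (ht' : ∀ j, ∃ k, a' k o' = j)
    (M : Ω → Ω' → ℤ) (hM : ∀ k i j, M (a k i) (a' k j) = M i j)
    (M' : Ω' → Ω → ℤ) (hM' : ∀ k i j, M' (a' k i) (a k j) = M' i j)
    (h1 : ∀ i, ∑ j, M o j * M' j i = if i = o then 1 else 0)
    (h2 : ∀ i, ∑ j, M' o' j * M j i = if i = o' then 1 else 0)
    (hf : ∀ g, a g = 1 → a' g = 1 → g = 1) (nf : ∀ j, ∃ g, a' g o' = o' ∧ a g j ≠ j) :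
    ∃ (Γ : Type) (_ : Group Γ) (_ : Finite Γ) (H H' : Subgroup Γ),
      H.normalCore = ⊥ ∧ H'.normalCore = ⊥ ∧
      (∃ e : ((Γ ⧸ H) →₀ ℤ) ≃ₗ[ℤ] ((Γ ⧸ H') →₀ ℤ),
        ∀ (g : Γ) x, e (mapDomain (g • ·) x) = mapDomain (g • ·) (e x)) ∧ IsEmpty (H ≃* H') := by
  have hf' : ∀ g, a g = 1 → g = 1 := by
    intro g hg
    refine hf g hg (Equiv.ext fun i => ?_)
    obtain ⟨k, rfl⟩ := ht' i
    have e1 := h2 o'
    have e2 := h2 (a' (k⁻¹ * g * k) o')
    have e3 : ∀ j, M j (a' (k⁻¹ * g * k) o') = M j o' := fun j => by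
      rw [← hM (k⁻¹ * g * k) j o']
      simp [hg]
    simp only [e3, e1, if_true] at e2
    have : a' (k⁻¹ * g * k) o' = o' := by
      by_contra hc
      rw [if_neg hc] at e2
      exact absurd e2 (by decide)
    rw [map_mul, map_mul, map_inv, Equiv.Perm.mul_apply, Equiv.Perm.mul_apply,
      Equiv.Perm.inv_eq_iff_eq] at this
    exact this
  have hact : ∀ g u x, act a g u x = u ((a g)⁻¹ x) := fun _ _ _ => rfl
  haveI : Finite (K a) := Finite.of_equiv _ SemidirectProduct.equivProd.symm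
  obtain ⟨f, hinj, hc⟩ := core (K := K a)
  let r : K a →* G := SemidirectProduct.rightHom
  refine ⟨K a ≀ᵣ ℤˣ, inferInstance, inferInstance, (st (a.comp r) o).map f,
    (st (a'.comp r) o').map f, hc _, hc _, eqv f (a.comp r) o (fun j => ?_) (a'.comp r) o'
    (fun j => ?_) M (fun k => hM _) M' (fun k => hM' _) h1 h2, ⟨fun e => ?_⟩⟩
  · obtain ⟨k, hk⟩ := ht j
    exact ⟨.inr k, hk⟩
  · obtain ⟨k, hk⟩ := ht' j
    exact ⟨.inr k, hk⟩
  have hP : Pr (st (a.comp r) o) := by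
    let c : S := finRotate 3
    refine ⟨⟨.inl (Pi.mulSingle o c), by show a 1 o = o; simp⟩, fun h => ?_, Subtype.ext ?_,
      fun h => ?_⟩
    · have := congrFun (congrArg (fun t => t.1.left) h) o
      simp only [SemidirectProduct.left_inl, Pi.mulSingle_eq_same] at this
      have h0 : c = 1 := this
      exact absurd h0 (by decide)
    · show (SemidirectProduct.inl (Pi.mulSingle o c) : K a) ^ 3 = 1
      rw [← map_pow, ← Pi.mulSingle_pow, show c ^ 3 = 1 by decide, Pi.mulSingle_one, map_one]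
    · have h3 : a h.1.right o = o := h.2
      have h4 : h.1 * .inl (Pi.mulSingle o c) * h.1⁻¹ =
          .inl (Pi.mulSingle o (h.1.left o * c * (h.1.left o)⁻¹)) := by
        refine SemidirectProduct.ext (funext fun x => ?_) (by simp)
        by_cases hx : x = o
        · subst hx
          simp [hact, Equiv.Perm.inv_eq_iff_eq.2 h3.symm]
        · have : (a h.1.right)⁻¹ x ≠ o := by
            rwa [Ne, Equiv.Perm.inv_eq_iff_eq, h3]
          have h0 : (Pi.mulSingle o c : Ω → S) ((a h.1.right).symm x) = 1 :=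
            Pi.mulSingle_eq_of_ne this _
          simp [hact, hx, h0]
      have h5 : ∀ s : S, s * c * s⁻¹ = c ∨ s * c * s⁻¹ = c⁻¹ := by decide
      refine (h5 (h.1.left o)).imp (fun e => Subtype.ext ?_) fun e => Subtype.ext ?_
      · exact h4.trans (by rw [e])
      · exact h4.trans (by rw [e, Pi.mulSingle_inv, map_inv]; rfl)
  obtain ⟨⟨x, hx⟩, k1, k2, k3⟩ := (((hP.map (Subgroup.equivMapOfInjective _ f hinj)).map e).map
    (Subgroup.equivMapOfInjective _ f hinj).symm)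
  have k2' : x ^ 3 = 1 := congrArg Subtype.val k2
  have k3' : ∀ h : K a, a' h.right o' = o' → h * x * h⁻¹ = x ∨ h * x * h⁻¹ = x⁻¹ := fun h hh =>
    (k3 ⟨h, hh⟩).imp (congrArg Subtype.val) (congrArg Subtype.val)
  have kb : ∀ b : Ω → S, (.inl b : K a) * x * (.inl b)⁻¹ = x ∨
      (.inl b : K a) * x * (.inl b)⁻¹ = x⁻¹ :=
    fun b => k3' _ (by simp)
  have hg : x.right = 1 := by
    by_contra hne
    refine hne (hf' _ (Equiv.ext fun ω => ?_))
    by_contra hω
    rcases kb (Pi.mulSingle (a x.right ω) (finRotate 3)) with h | h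
    · have := congrFun (congrArg SemidirectProduct.left h) (a x.right ω)
      have h6 : ω ≠ a x.right ω := fun e => hω e.symm
      simp [hact, h6] at this
      exact absurd this (by decide)
    · have h6 := congrArg SemidirectProduct.right h
      simp only [SemidirectProduct.mul_right, SemidirectProduct.right_inl, one_mul,
        SemidirectProduct.inv_right, inv_one, mul_one] at h6
      have h7 : x.right ^ 3 = 1 := by rw [← map_one r, ← k2', map_pow]; rfl
      apply hne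
      rw [pow_succ, pow_two, mul_eq_one_iff_eq_inv.2 h6, one_mul] at h7
      exact h7
  obtain ⟨u, g⟩ := x
  obtain rfl : g = 1 := hg
  have hu : ∀ ω, u ω ^ 3 = 1 := fun ω => by
    have : (SemidirectProduct.inl (u ^ 3) : K a) = 1 := by rw [map_pow]; exact k2'
    exact congrFun (congrArg SemidirectProduct.left this) ω
  obtain ⟨ω, hω⟩ : ∃ ω, u ω ≠ 1 := by
    by_contra hc
    push Not at hc
    exact k1 (Subtype.ext (SemidirectProduct.ext (funext hc) rfl))
  obtain ⟨s, hs⟩ : ∃ s : S, s * u ω * s⁻¹ ≠ u ω := by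
    revert hω
    generalize u ω = t
    revert t
    decide
  obtain ⟨g, g1, g2⟩ := nf ω
  have h8 : u ((a g)⁻¹ ω) = 1 := by
    have h9 : (a g)⁻¹ ω ≠ ω := by rw [Ne, Equiv.Perm.inv_eq_iff_eq]; exact fun e => g2 e.symm
    rcases kb (Pi.mulSingle ω s) with h | h
    · have := congrFun (congrArg SemidirectProduct.left h) ω
      simp [hact] at this
      exact absurd (by rw [this]) hs
    · have := congrFun (congrArg SemidirectProduct.left h) ((a g)⁻¹ ω)
      have h7 := hu ((a g)⁻¹ ω)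
      simp only [SemidirectProduct.mul_left, SemidirectProduct.left_inl, SemidirectProduct.right_inl,
        map_one, MulAut.one_apply, SemidirectProduct.mul_right, mul_one, SemidirectProduct.inv_left,
        inv_one, Pi.mul_apply, Pi.inv_apply, Pi.mulSingle_eq_of_ne h9, one_mul] at this
      rw [pow_succ, pow_two, mul_eq_one_iff_eq_inv.2 this, one_mul] at h7
      exact h7
  rcases k3' (.inr g) g1 with h | h
  · have := congrFun (congrArg SemidirectProduct.left h) ω
    simp only [SemidirectProduct.mul_left, SemidirectProduct.left_inr, SemidirectProduct.right_inr,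
      SemidirectProduct.inv_left, inv_one, map_one, mul_one, one_mul, hact, h8] at this
    exact hω this.symm
  · have := congrFun (congrArg SemidirectProduct.left h) ω
    simp only [SemidirectProduct.mul_left, SemidirectProduct.left_inr, SemidirectProduct.right_inr,
      SemidirectProduct.inv_left, inv_one, map_one, mul_one, one_mul, hact, h8, MulAut.one_apply,
      Pi.inv_apply] at this
    exact hω (inv_eq_one.1 this.symm)

end Pool.Agent.H.MP_997916_al
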