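import Mathlib
import Pool.Agent.H.MP_997916_al.A
import Pool.Agent.H.MP_997916_al.Data

set_option maxHeartbeats 400000

namespace Pool.Agent.H.MP_997916_al

open Function Finsupp

theorem allB_spec {n : ℕ} {f : ℕ → Bool} (h : allB n f = true) : ∀ k < n, f k = true := by
  induction n with
  | zero => intro k hk; omega
  | succ n ih =>
    have h' : (f n && allB n f) = true := h
    rw [Bool.and_eq_true] at h'
    intro k hk
    rcases Nat.lt_succ_iff_lt_or_eq.1 hk with h1 | rfl
    · exact ih h'.2 k h1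
    · exact h'.1

theorem sumZ_spec (n : ℕ) (f : ℕ → ℤ) : sumZ n f = ∑ i : Fin n, f i := by
  rw [Fin.sum_univ_eq_sum_range]
  induction n with
  | zero => rfl
  | succ n ih => rw [Finset.sum_range_succ, ← ih]; rfl

theorem pf_lt (A j : ℕ) : pf A j < 203 := Nat.mod_lt _ (by norm_num)

/-- the self-map of the point set -/
def pm (A : ℕ) (j : Fin 203) : Fin 203 := ⟨pf A j, pf_lt A j⟩

theorem cub_spec {A : ℕ} (h : cub A = true) (j : Fin 203) :
    pm A (pm A (pm A (pm A (pm A (pm A j))))) = j :=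
  Fin.ext (Nat.eq_of_beq_eq_true (allB_spec h j j.2))

/-- the permutation -/
def pe (A : ℕ) (h : cub A = true) : Equiv.Perm (Fin 203) where
  toFun := pm A
  invFun j := pm A (pm A (pm A (pm A (pm A j))))
  left_inv := cub_spec h
  right_inv := cub_spec h

/-- the group of pairs of permutations preserving the colouring -/
def GG : Subgroup (Equiv.Perm (Fin 203) × Equiv.Perm (Fin 203)) where
  carrier := {g | ∀ i j : Fin 203, O (g.2 i) (g.1 j) = O i j}
  one_mem' := fun _ _ => rfl
  mul_mem' := by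
    intro x y hx hy i j
    exact (hx _ _).trans (hy i j)
  inv_mem' := by
    intro x hx i j
    have := hx (x.2.symm i) (x.1.symm j)
    rw [Equiv.apply_symm_apply, Equiv.apply_symm_apply] at this
    exact this.symm

theorem exg {A B : ℕ} (h : (inv A B && cub A && cub B) = true) :
    ∃ g : GG, (∀ j, g.1.1 j = pm A j) ∧ ∀ j, g.1.2 j = pm B j := by
  simp only [Bool.and_eq_true] at h
  refine ⟨⟨(pe A h.1.2, pe B h.2), fun i j => ?_⟩, fun _ => rfl, fun _ => rfl⟩
  exact Nat.eq_of_beq_eq_true (allB_spec (allB_spec h.1.1 i i.2) j j.2)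

theorem trans {G : Type} [Group G] (a : G →* Equiv.Perm (Fin 203)) {P A B C : ℕ}
    (h : tr P A B C = true) (x y z : G) (hx : ∀ j, a x j = pm A j) (hy : ∀ j, a y j = pm B j)
    (hz : ∀ j, a z j = pm C j) : ∀ j, ∃ k, a k 0 = j := by
  intro ⟨j, hj⟩
  induction j using Nat.strong_induction_on with
  | _ j ih =>
    have := allB_spec h j hj
    simp only [Bool.or_eq_true, Bool.and_eq_true, Nat.beq_eq, Nat.blt_eq] at this
    rcases this with rfl | ⟨h1, h2⟩
    · exact ⟨1, by rw [map_one]; rfl⟩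
    obtain ⟨k, hk⟩ := ih _ h1 (pf_lt _ _)
    rcases h2 with (h2 | h2) | h2
    · exact ⟨x * k, by rw [map_mul, Equiv.Perm.mul_apply, hk, hx]; exact Fin.ext h2⟩
    · exact ⟨y * k, by rw [map_mul, Equiv.Perm.mul_apply, hk, hy]; exact Fin.ext h2⟩
    · exact ⟨z * k, by rw [map_mul, Equiv.Perm.mul_apply, hk, hz]; exact Fin.ext h2⟩

theorem bif0 (i : Fin 203) :
    (bif Nat.beq i 0 then (1 : ℤ) else 0) = if i = 0 then 1 else 0 := by
  by_cases h : i = 0
  · subst h; rfl
  · rw [if_neg h]
    have : Nat.beq i 0 = false := by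
      cases hb : Nat.beq i 0
      · rfl
      · exact absurd (Fin.ext (Nat.eq_of_beq_eq_true hb)) h
    rw [this]; rfl

theorem final : ∃ (Γ : Type) (_ : Group Γ) (_ : Finite Γ) (H H' : Subgroup Γ),
      H.normalCore = ⊥ ∧ H'.normalCore = ⊥ ∧
      (∃ e : ((Γ ⧸ H) →₀ ℤ) ≃ₗ[ℤ] ((Γ ⧸ H') →₀ ℤ),
        ∀ (g : Γ) x, e (mapDomain (g • ·) x) = mapDomain (g • ·) (e x)) ∧ IsEmpty (H ≃* H') := by
  obtain ⟨x, x1', x2'⟩ := exg hx
  obtain ⟨y, y1', y2'⟩ := exg hy
  obtain ⟨z, z1', z2'⟩ := exg hz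
  have t := t12
  rw [Bool.and_eq_true] at t
  have n := nf
  simp only [Bool.and_eq_true] at n
  refine main (G := GG) ((MonoidHom.fst _ _).comp GG.subtype) 0
    (trans _ t.1 x y z x1' y1' z1') ((MonoidHom.snd _ _).comp GG.subtype) 0
    (trans _ t.2 x y z x2' y2' z2') (fun j i => d (O i j)) (fun k j i => congrArg d (k.2 i j))
    (fun i j => c (O i j)) (fun k i j => congrArg c (k.2 i j)) (fun j => ?_) (fun i => ?_)
    (fun g h1 h2 => Subtype.ext (Prod.ext h1 h2)) (fun j => ?_)
  · have := of_decide_eq_true (allB_spec i1 j j.2)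
    rw [sumZ_spec, bif0] at this
    exact this
  · have := of_decide_eq_true (allB_spec i2 i i.2)
    rw [sumZ_spec, bif0] at this
    exact this
  · have := allB_spec n.2 j j.2
    simp only [Bool.or_eq_true, Bool.not_eq_true'] at this
    rcases this with h | h
    · refine ⟨x, (x2' 0).trans (Fin.ext (Nat.eq_of_beq_eq_true n.1.1)), fun e => ?_⟩
      have e' : pf x1 j = j := congrArg Fin.val ((x1' j).symm.trans e)
      rw [e', Nat.beq_refl] at h
      exact absurd h (by decide)
    · refine ⟨y, (y2' 0).trans (Fin.ext (Nat.eq_of_beq_eq_true n.1.2)), fun e => ?_⟩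
      have e' : pf y1 j = j := congrArg Fin.val ((y1' j).symm.trans e)
      rw [e', Nat.beq_refl] at h
      exact absurd h (by decide)

end Pool.Agent.H.MP_997916_al
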